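import Pool.Agent.Helper22.G4.GenFam
import Pool.Agent.Helper22.G4.St.P6
import Pool.Agent.Helper22.G4.St.G6

/-! # G4-H2: removing the degree-four vertices -/

namespace Pool.Agent.Helper67.G4

open Submodule Pool.Agent.Helper22.G4

section transport

variable {V V' E : Type*} [AddCommGroup E] [Module ℝ E]

lemma faceOn_map (f : V ↪ V') (c : V' → E) (A : Finset V) (Z : Set V) :
    FaceOn c (A.map f) (f '' Z) ↔ FaceOn (fun v => c (f v)) A Z := by
  constructor
  · rintro ⟨h1, g, h2, h3⟩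
    refine ⟨?_, g, ?_, ?_⟩
    · intro z hz
      have := h1 (Set.mem_image_of_mem f hz)
      simpa using this
    · intro w hw
      exact h2 (f w) (Finset.mem_map_of_mem f hw)
    · intro w hw
      rw [h3 (f w) (Finset.mem_map_of_mem f hw)]
      exact f.injective.mem_set_image
  · rintro ⟨h1, g, h2, h3⟩
    refine ⟨?_, g, ?_, ?_⟩
    · rintro _ ⟨z, hz, rfl⟩
      have := h1 hz
      simpa using this
    · intro w hw
      obtain ⟨v, hv, rfl⟩ := Finset.mem_map.1 hw
      exact h2 v hv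
    · intro w hw
      obtain ⟨v, hv, rfl⟩ := Finset.mem_map.1 hw
      rw [h3 v hv]
      exact f.injective.mem_set_image.symm

lemma conf_map (f : V ↪ V') (c : V' → E) (A : Finset V) (h : Conf c (A.map f)) :
    Conf (fun v => c (f v)) A := by
  obtain ⟨⟨g, hg⟩, h2⟩ := h
  refine ⟨⟨g, fun w hw => hg (f w) (Finset.mem_map_of_mem f hw)⟩, fun v hv => ?_⟩
  rw [← faceOn_map, Set.image_singleton]
  exact h2 (f v) (Finset.mem_map_of_mem f hv)

lemma rk_map (f : V ↪ V') (c : V' → E) (Z : Set V) :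
    rk c (f '' Z) = rk (fun v => c (f v)) Z := by
  rw [rk, rk, Set.image_image]

lemma rk_indep {c : V → E} {T : Finset V} (h : LinearIndependent ℝ (fun t : T => c t)) :
    rk c (T : Set V) = T.card := by
  have h1 := finrank_span_eq_card h
  rw [Fintype.card_coe] at h1
  have e : c '' (T : Set V) = Set.range (fun t : T => c t) := by
    ext y
    constructor
    · rintro ⟨v, hv, rfl⟩
      exact ⟨⟨v, hv⟩, rfl⟩
    · rintro ⟨⟨v, hv⟩, rfl⟩
      exact ⟨v, hv, rfl⟩
  rw [rk, e, h1]

end transport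

variable {α φ : Type} [DecidableEq α] [DecidableEq φ]

omit [DecidableEq α] [DecidableEq φ] in
lemma allW_eq (D : Data α φ) : D.allW = D.l3 := by
  simp [Data.allW, Data.l3, Data.l2, Data.l1, Data.l0]

/-- the four neighbours of a stacked vertex -/
def TT : X α φ → Finset (X α φ)
  | .inl _ => ∅
  | .inr L => (L.map Sum.inl).toFinset

/-- G4-H2 (after removing the degree-four vertices). -/
theorem gen_remove {D : Data α φ} (hD : D.Good) (h : ConicGraph D.allX.toFinset D.adjX) :
    ∃ c : W α φ → E5, Conf c D.l3.toFinset ∧ span ℝ (c '' (D.l3.toFinset : Set (W α φ))) = ⊤ ∧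
      (∀ u ∈ D.l3, ∀ v ∈ D.l3, u ≠ v → (FaceOn c D.l3.toFinset {u, v} ↔ D.adjW u v)) ∧
      ∀ R ∈ D.flats, ∀ T ∈ Ts R, FaceOn c D.l3.toFinset {w | w ∈ T} ∧ rk c {w | w ∈ T} = 4 := by
  obtain ⟨c', hc, hs, ha⟩ := h
  set ι : W α φ ↪ X α φ := ⟨Sum.inl, Sum.inl_injective⟩ with hι
  set A : Finset (X α φ) := D.l3.toFinset.map ι with hA
  set B : Finset (X α φ) := ((D.flats.flatMap Ts).map Sum.inr).toFinset with hB
  have hAB : A ∪ B = D.allX.toFinset := by
    ext z
    simp only [hA, hB, Data.allX, allW_eq, Finset.mem_union, Finset.mem_map, List.mem_toFinset,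
      List.mem_append, List.mem_map, hι, Function.Embedding.coeFn_mk]
  have hmemB : ∀ z ∈ B, ∃ R ∈ D.flats, ∃ L ∈ Ts R, z = Sum.inr L := by
    intro z hz
    simp only [hB, List.mem_toFinset, List.mem_map, List.mem_flatMap] at hz
    obtain ⟨L, ⟨R, hR, hL⟩, rfl⟩ := hz
    exact ⟨R, hR, L, hL, rfl⟩
  have hBmem : ∀ R ∈ D.flats, ∀ L ∈ Ts R, (Sum.inr L : X α φ) ∈ B := by
    intro R hR L hL
    simp only [hB, List.mem_toFinset, List.mem_map, List.mem_flatMap]
    exact ⟨L, ⟨R, hR, hL⟩, rfl⟩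
  have hmemA : ∀ z ∈ A, ∃ w ∈ D.l3, z = Sum.inl w := by
    intro z hz
    obtain ⟨w, hw, rfl⟩ := Finset.mem_map.1 hz
    exact ⟨w, List.mem_toFinset.1 hw, rfl⟩
  have hAmem : ∀ w ∈ D.l3, (Sum.inl w : X α φ) ∈ A := by
    intro w hw
    exact Finset.mem_map.2 ⟨w, List.mem_toFinset.2 hw, rfl⟩
  have hdisj : Disjoint A B := by
    rw [Finset.disjoint_left]
    intro z hz hz'
    obtain ⟨w, _, rfl⟩ := hmemA z hz
    obtain ⟨R, _, L, _, h⟩ := hmemB _ hz'
    cases h
  have hr : rk c' ((A ∪ B : Finset (X α φ)) : Set (X α φ)) = 5 := by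
    rw [hAB, rk, hs, finrank_top]
    simp
  have hTT : ∀ L : List (W α φ), (TT (Sum.inr L : X α φ)) = L.toFinset.map ι := by
    intro L
    ext z
    simp [TT, hι]
  have h5 : 5 ≤ A.card := by
    rw [hA, Finset.card_map]
    have h1 : (D.verts.map (W.v (α := α) (φ := φ))).toFinset ⊆ D.l3.toFinset := by
      intro w hw
      rw [List.mem_toFinset] at hw ⊢
      simp only [Data.l3, Data.l2, Data.l1, Data.l0, List.mem_append]
      exact Or.inl (Or.inl (Or.inl hw))
    have h2 := Finset.card_le_card h1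
    rw [List.toFinset_card_of_nodup (hD.vnd.map Sum.inl_injective), List.length_map] at h2
    have := hD.big
    omega
  rw [← hAB] at hc
  obtain ⟨k1, k2, k3, k4⟩ := remove_all hdisj hc hr D.adjX
    (by rw [hAB]; intro u hu v hv; exact ha u hu v hv) TT
    (by
      intro z hz
      obtain ⟨R, hR, L, hL, rfl⟩ := hmemB z hz
      obtain ⟨g1, g2, -⟩ := gen_T_list hD R hR L hL
      rw [hTT, Finset.card_map, List.toFinset_card_of_nodup g1, g2])
    (by
      intro z hz
      obtain ⟨R, hR, L, hL, rfl⟩ := hmemB z hz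
      obtain ⟨-, -, g3⟩ := gen_T_list hD R hR L hL
      rw [hTT, hA]
      exact Finset.map_subset_map.2 fun w hw => List.mem_toFinset.2 (g3 w (List.mem_toFinset.1 hw)))
    (by
      intro z hz t _ _
      obtain ⟨R, hR, L, hL, rfl⟩ := hmemB z hz
      rw [hTT]
      rcases t with t | t
      · have e : (D.adjX (Sum.inr L) (Sum.inl t) ↔ t ∈ L) := Iff.rfl
        rw [e]
        simp [hι]
      · have e : (D.adjX (Sum.inr L) (Sum.inr t) ↔ False) := Iff.rfl
        rw [e]
        simp [hι])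
    (by
      intro z hz s hs t ht hst
      obtain ⟨R, hR, L, hL, rfl⟩ := hmemB z hz
      rw [hTT] at hs ht
      obtain ⟨a, ha', rfl⟩ := Finset.mem_map.1 hs
      obtain ⟨b, hb', rfl⟩ := Finset.mem_map.1 ht
      exact gen_T_clique hD R hR L hL a (List.mem_toFinset.1 ha') b (List.mem_toFinset.1 hb')
        (fun e => hst (by rw [e])))
    h5
  refine ⟨fun w => c' (Sum.inl w), conf_map ι c' _ k1, ?_, ?_, ?_⟩
  · have e : rk (fun w => c' (ι w)) (D.l3.toFinset : Set (W α φ)) = 5 := by
      rw [← rk_map ι, ← Finset.coe_map]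
      exact k2
    exact Submodule.eq_top_of_finrank_eq (e.trans (by simp))
  · intro u hu v hv huv
    have := k3 (ι u) (hAmem u hu) (ι v) (hAmem v hv) (fun e => huv (ι.injective e))
    rw [← Set.image_pair, hA, faceOn_map] at this
    exact this
  · intro R hR L hL
    obtain ⟨m1, m2⟩ := k4 _ (hBmem R hR L hL)
    obtain ⟨g1, g2, -⟩ := gen_T_list hD R hR L hL
    have e : ((TT (Sum.inr L : X α φ) : Finset (X α φ)) : Set (X α φ)) = ι '' {w | w ∈ L} := by
      rw [hTT]
      ext z; simp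
    constructor
    · rw [e, hA, faceOn_map] at m1
      exact m1
    · have := rk_indep m2
      rw [e, rk_map, hTT, Finset.card_map, List.toFinset_card_of_nodup g1, g2] at this
      exact this

end Pool.Agent.Helper67.G4
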