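import Pool.Agent.Helper22.G4.Poly

/-! # G4-M3: the membership formula is computed in polynomial time -/

namespace Pool.Agent.Helper67.G4

open Pool.Agent.Helper22.G4 Pool.Agent.Helper89 Pool.Agent.Helper91.PolyTime

variable {α β : Type} [PEnc α] [PEnc β]

/-- terms computable in polynomial time -/
def TF (t : α → PTerm) : Prop := PTF fun a => (t a).enc

/-- formulas computable in polynomial time -/
def QF (φ : α → QFormula) : Prop := PTF fun a => (φ a).enc

theorem TF.comp {t : β → PTerm} {f : α → β} (ht : TF t) (hf : PTF f) : TF fun a => t (f a) :=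
  PTF.comp (g := fun b => (t b).enc) ht hf

theorem QF.comp {t : β → QFormula} {f : α → β} (ht : QF t) (hf : PTF f) : QF fun a => t (f a) :=
  PTF.comp (g := fun b => (t b).enc) ht hf

theorem TF.const (t : PTerm) : TF fun _ : α => t := PTF.const t.enc

theorem TF.add {s t : α → PTerm} (hs : TF s) (ht : TF t) : TF fun a => .add (s a) (t a) :=
  PTF.append (PTF.append hs ht) (PTF.const [Tok.add])

theorem TF.mul {s t : α → PTerm} (hs : TF s) (ht : TF t) : TF fun a => .mul (s a) (t a) :=
  PTF.append (PTF.append hs ht) (PTF.const [Tok.mul])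

theorem QF.eq {s t : α → PTerm} (hs : TF s) (ht : TF t) : QF fun a => .eq (s a) (t a) :=
  PTF.append (PTF.append hs ht) (PTF.const [Tok.eq])

theorem QF.lt {s t : α → PTerm} (hs : TF s) (ht : TF t) : QF fun a => .lt (s a) (t a) :=
  PTF.append (PTF.append hs ht) (PTF.const [Tok.lt])

theorem QF.le {s t : α → PTerm} (hs : TF s) (ht : TF t) : QF fun a => .le (s a) (t a) :=
  PTF.append (PTF.append hs ht) (PTF.const [Tok.le])

theorem QF.and {s t : α → QFormula} (hs : QF s) (ht : QF t) : QF fun a => .and (s a) (t a) :=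
  PTF.append (PTF.append hs ht) (PTF.const [Tok.and])

theorem QF.ite {c : α → Prop} [DecidablePred c] {s t : α → QFormula}
    (hc : PTF fun a => decide (c a)) (hs : QF s) (ht : QF t) :
    QF fun a => if c a then s a else t a := by
  refine PTF.of_eq (PTF.ite hc hs ht) fun a => ?_
  by_cases h : c a <;> simp [h]

theorem replicate_ptf {f : α → ℕ} (hf : PTF f) : PTF fun a => List.replicate (f a) Tok.tick := by
  refine (PTF.map (f := fun (_ : α) (_ : ℕ) => Tok.tick) (PTF.range hf)
    (PTF.const Tok.tick)).of_eq fun a => ?_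
  simp

theorem TF.var {f : α → ℕ} (hf : PTF f) : TF fun a => .var (f a) :=
  PTF.append (replicate_ptf hf) (PTF.const [Tok.var])

theorem sumT_enc' (l : List PTerm) (t : PTerm) :
    (l.foldl .add t).enc = t.enc ++ l.flatMap fun s => s.enc ++ [.add] := by
  induction l generalizing t with
  | nil => simp
  | cons s l ih => rw [List.foldl_cons, ih]; simp [PTerm.enc]

theorem conjF_enc' (l : List QFormula) (t : QFormula) :
    (l.foldl .and t).enc = t.enc ++ l.flatMap fun s => s.enc ++ [.and] := by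
  induction l generalizing t with
  | nil => simp
  | cons s l ih => rw [List.foldl_cons, ih]; simp [QFormula.enc]

theorem conjF_append (l m : List QFormula) :
    (conjF (l ++ m)).enc = (conjF l).enc ++ m.flatMap fun s => s.enc ++ [.and] := by
  simp only [conjF, conjF_enc', List.flatMap_append, List.append_assoc]

theorem TF.sum {l : α → List β} {f : α → β → PTerm} (hl : PTF l)
    (hf : TF fun p : α × β => f p.1 p.2) : TF fun a => sumT ((l a).map (f a)) := by
  have h := PTF.append (PTF.const (PTerm.const 0).enc)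
    (PTF.flatMap (f := fun a b => (f a b).enc ++ [Tok.add]) hl (PTF.append hf (PTF.const [Tok.add])))
  refine PTF.of_eq h fun a => ?_
  simp only [sumT, sumT_enc', List.flatMap_map]

theorem flat_ptf {l : α → List β} {f : α → β → QFormula} (hl : PTF l)
    (hf : QF fun p : α × β => f p.1 p.2) :
    PTF fun a => ((l a).map (f a)).flatMap fun s => s.enc ++ [Tok.and] := by
  have h := PTF.flatMap (f := fun a b => (f a b).enc ++ [Tok.and]) hl
    (PTF.append hf (PTF.const [Tok.and]))
  refine PTF.of_eq h fun a => ?_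
  simp only [List.flatMap_map]

theorem QF.conj {l : α → List β} {f : α → β → QFormula} (hl : PTF l)
    (hf : QF fun p : α × β => f p.1 p.2) : QF fun a => conjF ((l a).map (f a)) := by
  have h := PTF.append (PTF.const (QFormula.eq (.const 0) (.const 0)).enc) (flat_ptf hl hf)
  refine PTF.of_eq h fun a => ?_
  simp only [conjF, conjF_enc']

section pieces

variable {n u v w i : α → ℕ}

theorem vp_ptf (hv : PTF v) (hi : PTF i) : TF fun a => vp (v a) (i a) :=
  TF.var (PTF.add (PTF.mul (PTF.const 4) hv) hi)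

theorem vf_ptf (hn : PTF n) (hu : PTF u) (hv : PTF v) (hi : PTF i) :
    TF fun a => vf (n a) (u a) (v a) (i a) :=
  TF.var (PTF.add (PTF.add (PTF.mul (PTF.const 4) hn)
    (PTF.mul (PTF.add (PTF.mul hu hn) hv) (PTF.add hn (PTF.const 4)))) hi)

theorem vl_ptf (hn : PTF n) (hu : PTF u) (hv : PTF v) (hw : PTF w) :
    TF fun a => vl (n a) (u a) (v a) (w a) :=
  TF.var (PTF.add (PTF.add (PTF.add (PTF.mul (PTF.const 4) hn)
    (PTF.mul (PTF.add (PTF.mul hu hn) hv) (PTF.add hn (PTF.const 4)))) (PTF.const 4)) hw)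

theorem vd_ptf (hn : PTF n) (hi : PTF i) (hv : PTF v) :
    TF fun a => vd (n a) (i a) (v a) :=
  TF.var (PTF.add (PTF.add (PTF.add (PTF.mul (PTF.const 4) hn)
    (PTF.mul (PTF.mul hn hn) (PTF.add hn (PTF.const 4)))) (PTF.mul hi hn)) hv)

theorem dotT_ptf (hn : PTF n) (hu : PTF u) (hv : PTF v) (hw : PTF w) :
    TF fun a => dotT (n a) (u a) (v a) (w a) := by
  unfold dotT
  refine TF.sum (l := fun _ => List.range 4) (f := fun a i => .mul (vf (n a) (u a) (v a) i)
    (vp (w a) i)) (PTF.const _) (TF.mul (vf_ptf ?_ ?_ ?_ PTF.id.snd) (vp_ptf ?_ PTF.id.snd))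
  · exact hn.comp PTF.id.fst
  · exact hu.comp PTF.id.fst
  · exact hv.comp PTF.id.fst
  · exact hw.comp PTF.id.fst

theorem vertF_ptf (hn : PTF n) (hv : PTF v) : QF fun a => vertF (n a) (v a) := by
  unfold vertF
  have hn' : PTF fun p : α × ℕ => n p.1 := hn.comp PTF.id.fst
  have hv' : PTF fun p : α × ℕ => v p.1 := hv.comp PTF.id.fst
  have hw' : PTF fun p : α × ℕ => p.2 := PTF.id.snd
  refine QF.conj (l := fun a => (List.range (n a)).filter fun w => !(decide (w = v a)))
    (f := fun a w => .lt (dotT (n a) (v a) (v a) w) (dotT (n a) (v a) (v a) (v a)))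
    (PTF.filter (f := fun a w => !(decide (w = v a))) (PTF.range hn) (PTF.not (PTF.eq hw' hv')))
    (QF.lt (dotT_ptf hn' hv' hv' hw') (dotT_ptf hn' hv' hv' hv'))

theorem others_ptf (hn : PTF n) (hu : PTF u) (hv : PTF v) :
    PTF fun a => others (n a) (u a) (v a) := by
  unfold others
  have hu' : PTF fun p : α × ℕ => u p.1 := hu.comp PTF.id.fst
  have hv' : PTF fun p : α × ℕ => v p.1 := hv.comp PTF.id.fst
  have hw' : PTF fun p : α × ℕ => p.2 := PTF.id.snd
  exact PTF.filter (f := fun a w => !(decide (w = u a)) && !(decide (w = v a))) (PTF.range hn)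
    (PTF.and (PTF.not (PTF.eq hw' hu')) (PTF.not (PTF.eq hw' hv')))

theorem edgeF_ptf (hn : PTF n) (hu : PTF u) (hv : PTF v) :
    QF fun a => edgeF (n a) (u a) (v a) := by
  unfold edgeF
  have hn' : PTF fun p : α × ℕ => n p.1 := hn.comp PTF.id.fst
  have hu' : PTF fun p : α × ℕ => u p.1 := hu.comp PTF.id.fst
  have hv' : PTF fun p : α × ℕ => v p.1 := hv.comp PTF.id.fst
  have hw' : PTF fun p : α × ℕ => p.2 := PTF.id.snd
  exact QF.and (QF.eq (dotT_ptf hn hu hv hu) (dotT_ptf hn hu hv hv))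
    (QF.conj (f := fun a w => .lt (dotT (n a) (u a) (v a) w) (dotT (n a) (u a) (v a) (u a)))
      (others_ptf hn hu hv) (QF.lt (dotT_ptf hn' hu' hv' hw') (dotT_ptf hn' hu' hv' hu')))

theorem nonF_ptf (hn : PTF n) (hu : PTF u) (hv : PTF v) :
    QF fun a => nonF (n a) (u a) (v a) := by
  unfold nonF
  have hn' : PTF fun p : α × ℕ => n p.1 := hn.comp PTF.id.fst
  have hu' : PTF fun p : α × ℕ => u p.1 := hu.comp PTF.id.fst
  have hv' : PTF fun p : α × ℕ => v p.1 := hv.comp PTF.id.fst
  have hw' : PTF fun p : α × ℕ => p.2 := PTF.id.snd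
  refine QF.and (QF.conj (f := fun a w => .le (.const 0) (vl (n a) (u a) (v a) w)) (PTF.range hn)
      (QF.le (TF.const _) (vl_ptf hn' hu' hv' hw')))
    (QF.and (QF.eq (TF.add (vl_ptf hn hu hv hu) (vl_ptf hn hu hv hv)) (TF.const _))
      (QF.and (QF.eq (TF.sum (f := fun a w => vl (n a) (u a) (v a) w) (others_ptf hn hu hv)
          (vl_ptf hn' hu' hv' hw')) (TF.const _))
        (QF.conj (l := fun _ => List.range 4) (f := fun a i =>
          .eq (.add (.mul (vl (n a) (u a) (v a) (u a)) (vp (u a) i))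
            (.mul (vl (n a) (u a) (v a) (v a)) (vp (v a) i)))
            (sumT ((others (n a) (u a) (v a)).map fun w =>
              .mul (vl (n a) (u a) (v a) w) (vp w i)))) (PTF.const _) ?_)))
  refine QF.eq (TF.add (TF.mul (vl_ptf hn' hu' hv' hu') (vp_ptf hu' hw'))
    (TF.mul (vl_ptf hn' hu' hv' hv') (vp_ptf hv' hw'))) ?_
  refine TF.sum (α := α × ℕ) (l := fun p => others (n p.1) (u p.1) (v p.1))
    (f := fun p w => .mul (vl (n p.1) (u p.1) (v p.1) w) (vp w p.2)) (others_ptf hn' hu' hv') ?_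
  exact TF.mul (vl_ptf (hn'.comp PTF.id.fst) (hu'.comp PTF.id.fst) (hv'.comp PTF.id.fst)
    PTF.id.snd) (vp_ptf PTF.id.snd PTF.id.fst.snd)

theorem const_ite_ptf {i k : α → ℕ} (hi : PTF i) (hk : PTF k) :
    TF fun a => .const (if k a = i a then 1 else 0) := by
  have h := PTF.ite (c := fun a => k a = i a) (f := fun _ => (PTerm.const 1).enc)
    (g := fun _ => (PTerm.const 0).enc) (PTF.eq hk hi) (PTF.const _) (PTF.const _)
  refine PTF.of_eq h fun a => ?_
  by_cases h : k a = i a <;> simp [h]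

theorem dimF_ptf (hn : PTF n) (hi : PTF i) : QF fun a => dimF (n a) (i a) := by
  unfold dimF
  have hn' : PTF fun p : α × ℕ => n p.1 := hn.comp PTF.id.fst
  have hi' : PTF fun p : α × ℕ => i p.1 := hi.comp PTF.id.fst
  have hw' : PTF fun p : α × ℕ => p.2 := PTF.id.snd
  refine QF.and (QF.eq (TF.sum (f := fun a v => vd (n a) (i a) v) (PTF.range hn)
      (vd_ptf hn' hi' hw')) (TF.const _))
    (QF.conj (l := fun _ => List.range 4) (f := fun a k =>
      .eq (sumT ((List.range (n a)).map fun v => .mul (vd (n a) (i a) v) (vp v k)))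
        (.const (if k = i a then 1 else 0))) (PTF.const _)
      (QF.eq (TF.sum (α := α × ℕ) (f := fun p v => .mul (vd (n p.1) (i p.1) v) (vp v p.2))
        (PTF.range hn') (TF.mul (vd_ptf (hn'.comp PTF.id.fst) (hi'.comp PTF.id.fst)
          PTF.id.snd) (vp_ptf PTF.id.snd PTF.id.fst.snd))) (const_ite_ptf hi' hw')))

theorem mem_ptf {γ : Type} [PEnc γ] [DecidableEq γ] {x : α → γ} {l : α → List γ}
    [DecidablePred fun a => x a ∈ l a] (hx : PTF x) (hl : PTF l) :
    PTF fun a => decide (x a ∈ l a) := by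
  have h := PTF.any (f := fun a y => decide (x a = y)) hl
    (PTF.eq (hx.comp PTF.id.fst) PTF.id.snd)
  refine PTF.of_eq h fun a => ?_
  rw [Bool.eq_iff_iff]
  simp

theorem pairF_ptf {E : α → List (ℕ × ℕ)} (hn : PTF n) (hE : PTF E) (hu : PTF u) (hv : PTF v) :
    QF fun a => pairF (n a) (E a) (u a) (v a) := by
  unfold pairF
  exact QF.ite (PTF.decide_or (mem_ptf (PTF.pair hu hv) hE) (mem_ptf (PTF.pair hv hu) hE))
    (edgeF_ptf hn hu hv) (nonF_ptf hn hu hv)

end pieces

/-- G4-M3 -/
theorem ptf_memF : PTF fun p : ℕ × List (ℕ × ℕ) => (memF p.1 p.2).enc := by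
  have hn : PTF fun p : ℕ × List (ℕ × ℕ) => p.1 := PTF.id.fst
  have hE : PTF fun p : ℕ × List (ℕ × ℕ) => p.2 := PTF.id.snd
  have hn' : PTF fun q : (ℕ × List (ℕ × ℕ)) × ℕ => q.1.1 := hn.comp PTF.id.fst
  have hE' : PTF fun q : (ℕ × List (ℕ × ℕ)) × ℕ => q.1.2 := hE.comp PTF.id.fst
  have hw' : PTF fun q : (ℕ × List (ℕ × ℕ)) × ℕ => q.2 := PTF.id.snd
  have h1 := QF.conj (f := fun (p : ℕ × List (ℕ × ℕ)) v => vertF p.1 v) (PTF.range hn)
    (vertF_ptf hn' hw')
  have h3 := flat_ptf (l := fun _ : ℕ × List (ℕ × ℕ) => List.range 4)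
    (f := fun (p : ℕ × List (ℕ × ℕ)) i => dimF p.1 i) (PTF.const _) (dimF_ptf hn' hw')
  have h2' := flat_ptf (α := (ℕ × List (ℕ × ℕ)) × ℕ) (l := fun q => List.range q.2)
    (f := fun q u => pairF q.1.1 q.1.2 u q.2) (PTF.range hw')
    (pairF_ptf (hn'.comp PTF.id.fst) (hE'.comp PTF.id.fst) PTF.id.snd (hw'.comp PTF.id.fst))
  have h2 := PTF.flatMap (l := fun p : ℕ × List (ℕ × ℕ) => List.range p.1)
    (f := fun p v => ((List.range v).map fun u => pairF p.1 p.2 u v).flatMap
      fun s => s.enc ++ [Tok.and]) (PTF.range hn) h2'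
  refine PTF.of_eq (PTF.append h1 (PTF.append h2 h3)) fun p => ?_
  simp only [memF, conjF_append, List.flatMap_append, List.flatMap_assoc]

end Pool.Agent.Helper67.G4
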