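import Pool.Agent.Helper22.G4.Real

/-! # G4-R3: convex chains are pages -/

namespace Pool.Agent.Helper67.G4

open Submodule Pool.Agent.Helper22.G4

lemma exists_pred {α : Type*} {R : α → α → Prop} : ∀ {l : List α} {a p : α},
    (a :: l).IsChain R → p ∈ l → ∃ r ∈ a :: l, R r p := by
  intro l
  induction l with
  | nil => intro a p _ hp; cases hp
  | cons b l ih =>
    intro a p h hp
    rw [List.isChain_cons_cons] at h
    rcases List.mem_cons.1 hp with rfl | hp
    · exact ⟨a, by simp, h.1⟩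
    · obtain ⟨r, hr, h1⟩ := ih h.2 hp
      exact ⟨r, List.mem_cons_of_mem _ hr, h1⟩

lemma exists_succ {α : Type*} {R : α → α → Prop} : ∀ {l : List α} {p : α},
    l.IsChain R → p ∈ l → (l.getLast? = some p ∨ ∃ q ∈ l, R p q) := by
  intro l
  induction l with
  | nil => intro p _ hp; cases hp
  | cons a l ih =>
    intro p h hp
    rcases l with _ | ⟨b, l⟩
    · left
      simp only [List.mem_singleton] at hp
      simp [hp]
    · rw [List.isChain_cons_cons] at h
      rcases List.mem_cons.1 hp with rfl | hp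
      · exact Or.inr ⟨b, by simp, h.1⟩
      · rcases ih h.2 hp with h1 | ⟨q, hq, h1⟩
        · left
          rw [List.getLast?_cons_cons]; exact h1
        · exact Or.inr ⟨q, List.mem_cons_of_mem _ hq, h1⟩

/-- G4-R3 (a convex chain is a page). -/
theorem page_chain {al : ℕ → ℝ} {N : ℕ} (hal : ∀ i j, i < j → j ≤ N → al i < al j)
    (J : List (ℕ × ℕ)) (X H : ℕ → ℝ) (hJ : ∀ p ∈ J, p.1 < p.2 ∧ p.2 ≤ N)
    (hc : J.IsChain fun p q => p.2 = q.1 ∧ X p.1 < X q.1 ∧
      H q.1 - H p.1 = al q.1 * (X q.1 - X p.1))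
    (hfirst : ∀ p ∈ J.head?, p.1 = 0) (hlast : ∀ p ∈ J.getLast?, p.2 = N) :
    ∃ T : ℕ → ℝ, PageOK al N J X H T := by
  classical
  set F : ℕ × ℕ → ℕ → ℝ := fun p s => H p.1 - al s * X p.1 with hF
  have hmono : ∀ i j, i ≤ j → j ≤ N → al i ≤ al j := by
    intro i j hij hj
    rcases hij.lt_or_eq with h | h
    · exact (hal i j h hj).le
    · rw [h]
  -- consecutive intervals
  have hcons : ∀ p q : ℕ × ℕ, (p.2 = q.1 ∧ X p.1 < X q.1 ∧
      H q.1 - H p.1 = al q.1 * (X q.1 - X p.1)) → ∀ s,
      F p s - F q s = (al s - al q.1) * (X q.1 - X p.1) := by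
    intro p q h s
    simp only [hF]
    linear_combination (-1 : ℝ) * h.2.2
  -- the pairwise relation
  set Rel : ℕ × ℕ → ℕ × ℕ → Prop := fun p q => p.2 ≤ q.1 ∧ q.1 ≤ q.2 ∧
    (∀ s ≤ p.2, s ≤ N → F p s ≤ F q s) ∧ (∀ s, q.1 ≤ s → s ≤ N → F q s ≤ F p s) with hRel
  have htrans : Trans Rel Rel Rel := by
    refine ⟨?_⟩
    rintro p q r ⟨h1, h2, h3, h4⟩ ⟨k1, k2, k3, k4⟩
    refine ⟨by omega, k2, ?_, ?_⟩
    · intro s hs hN
      exact (h3 s hs hN).trans (k3 s (by omega) hN)
    · intro s hs hN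
      exact (k4 s hs hN).trans (h4 s (by omega) hN)
  have hchain : J.IsChain Rel := by
    refine hc.imp_of_mem_imp ?_
    intro p q hp hq h
    have hq' := hJ q hq
    have hd : 0 < X q.1 - X p.1 := by linarith [h.2.1]
    refine ⟨h.1.le, hq'.1.le, ?_, ?_⟩
    · intro s hs _
      have h1 := hcons p q h s
      have h2 : al s ≤ al q.1 := hmono _ _ (by omega) (by omega)
      nlinarith
    · intro s hs hN
      have h1 := hcons p q h s
      have h2 : al q.1 ≤ al s := hmono _ _ hs hN
      nlinarith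
  have hpair : J.Pairwise Rel := List.isChain_iff_pairwise.1 hchain
  have htot : ∀ p ∈ J, ∀ q ∈ J, p ≠ q → Rel p q ∨ Rel q p := by
    have key := hpair.imp (S := fun p q => Rel p q ∨ Rel q p) (fun h => Or.inl h)
    have : Std.Symm (fun p q => Rel p q ∨ Rel q p) := ⟨fun _ _ h => h.symm⟩
    intro p hp q hq hpq
    exact key.forall hp hq hpq
  refine ⟨fun s => if h : J.toFinset.Nonempty then J.toFinset.inf' h (fun p => F p s) else 0, ?_⟩
  intro p hp s hs
  have hne : J.toFinset.Nonempty := ⟨p, List.mem_toFinset.2 hp⟩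
  simp only [dif_pos hne]
  have hle : ∀ q ∈ J, J.toFinset.inf' hne (fun p => F p s) ≤ F q s := fun q hq =>
    Finset.inf'_le _ (List.mem_toFinset.2 hq)
  refine ⟨hle p hp, ?_⟩
  constructor
  · intro h
    have hmin : ∀ q ∈ J, F p s ≤ F q s := fun q hq => by
      have := hle q hq
      rw [h] at this
      exact this
    constructor
    · by_contra hlt
      push Not at hlt
      obtain ⟨a, l, rfl⟩ : ∃ a l, J = a :: l := by
        rcases J with _ | ⟨a, l⟩
        · cases hp
        · exact ⟨a, l, rfl⟩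
      have ha : a.1 = 0 := hfirst a (by simp)
      rcases List.mem_cons.1 hp with rfl | hp'
      · omega
      · obtain ⟨r, hr, h1⟩ := exists_pred hc hp'
        have h2 := hcons r p h1 s
        have h3 := hmin r hr
        have h4 := hJ p hp
        have h5 : al s < al p.1 := hal _ _ hlt (by omega)
        have hd : 0 < X p.1 - X r.1 := by linarith [h1.2.1]
        nlinarith
    · by_contra hlt
      push Not at hlt
      rcases exists_succ hc hp with h1 | ⟨q, hq, h1⟩
      · have := hlast p (by rw [h1]; rfl)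
        omega
      · have h2 := hcons p q h1 s
        have h3 := hmin q hq
        have h5 : al q.1 < al s := hal _ _ (by rw [← h1.1]; exact hlt) hs
        have hd : 0 < X q.1 - X p.1 := by linarith [h1.2.1]
        nlinarith
  · rintro ⟨h1, h2⟩
    refine le_antisymm (hle p hp) ?_
    refine Finset.le_inf' _ _ fun q hq => ?_
    have hq' : q ∈ J := List.mem_toFinset.1 hq
    by_cases hpq : p = q
    · rw [hpq]
    · rcases htot p hp q hq' hpq with h3 | h3
      · exact h3.2.2.1 s h2 hs
      · exact h3.2.2.2 s h1 hs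

theorem page_zero {al : ℕ → ℝ} {N : ℕ} (hN : 1 ≤ N) (hal : ∀ i j, i < j → j ≤ N → al i < al j) :
    ∃ X H T : ℕ → ℝ, PageOK al N ((List.range N).map fun i => (i, i + 1)) X H T := by
  refine ⟨fun i => i, fun i => ∑ k ∈ Finset.range i, al (k + 1), ?_⟩
  refine page_chain hal _ _ _ ?_ ?_ ?_ ?_
  · intro p hp
    obtain ⟨i, hi, rfl⟩ := List.mem_map.1 hp
    have := List.mem_range.1 hi
    exact ⟨by simp, by simp; omega⟩
  · rw [List.isChain_iff_getElem]
    intro i hi
    simp only [List.getElem_map, List.getElem_range]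
    refine ⟨trivial, by push_cast; linarith, ?_⟩
    rw [Finset.sum_range_succ]
    push_cast
    ring
  · intro p hp
    obtain ⟨n, rfl⟩ : ∃ n, N = n + 1 := ⟨N - 1, by omega⟩
    rw [List.range_succ_eq_map] at hp
    simp at hp
    rw [← hp]
  · intro p hp
    obtain ⟨n, rfl⟩ : ∃ n, N = n + 1 := ⟨N - 1, by omega⟩
    rw [List.range_succ] at hp
    simp at hp
    rw [← hp]

end Pool.Agent.Helper67.G4
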